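import Pool.Agent.TH590.JH.Pure

/-!
# Deligne's conjecture and smooth affine cubic hypersurfaces with coefficients `0`, `1`, `-1`
-/

set_option autoImplicit false

open CategoryTheory CategoryTheory.Limits AlgebraicGeometry Pool.Agent.TH90.Cub
  Pool.Agent.TH590.JH

namespace Pool.Agent.Results.MP_b696eb_nt.CubicHypersurfaces

universe v u

attribute [local instance] Abelian.hasFiniteBiproducts

/-- The critical motives, the values `L(M, 0)` and the periods `c⁺(M)`, for a theory of motives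
over `ℚ`. For pure motives `S_1, …, S_n` of the same weight, their direct sum `M` is critical if and
only if all `S_a` are; then `L(M, 0) = ∏ L(S_a, 0)`, and `c⁺(M)` is `∏ c⁺(S_a)` up to a nonzero
rational factor. -/
structure Deligne {𝓐 : Type u} [Category.{v} 𝓐] [Abelian 𝓐] (T : Theory ℚ 𝓐) where
  /-- `M` is critical -/
  critical : 𝓐 → Prop
  /-- the value `L(M, 0)` -/
  L : 𝓐 → ℂ
  /-- Deligne's period `c⁺(M)` -/
  c : 𝓐 → ℂ
  additive : ∀ (w : ℤ) (n : ℕ) (S : Fin n → 𝓐) (M : 𝓐), (∀ a, T.IsPure w (S a)) →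
    Nonempty (M ≅ ⨁ S) →
    (critical M ↔ ∀ a, critical (S a)) ∧
    (critical M → L M = ∏ a, L (S a) ∧ ∃ q : ℚ, q ≠ 0 ∧ c M = q * ∏ a, c (S a))

/-- **Deligne's conjecture and smooth affine cubic hypersurfaces.** Deligne's conjecture
`L(M, 0) ∈ ℚ c⁺(M)` holds for all critical pure motives `M` over `ℚ` if and only if it holds for the
critical simple motives `M` which are subquotients of some `H_c^j(C)(m)`, where `C` is a
hypersurface `g_0 t_0 + ⋯ + g_r t_r = 1` in the affine space with the coordinates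
`x_1, …, x_n, t_0, …, t_r` over `ℚ`, each `g_i` being of the form `x_a x_b - x_c`,
`x_a + x_b - x_c` or `x_a - 1`. These hypersurfaces `C` are smooth. All simple pure motives are
subquotients of such `H_c^j(C)(m)`. -/
theorem result {𝓐 : Type u} [Category.{v} 𝓐] [Abelian 𝓐] (T : WeightTheory ℚ 𝓐)
    (D : Deligne T.toTheory) :
    ((∀ (w : ℤ) (M : 𝓐), T.IsPure w M → D.critical M → ∃ q : ℚ, D.L M = q * D.c M) ↔
      (∀ M : 𝓐, Simple M → T.FromCubic {1} M → D.critical M → ∃ q : ℚ, D.L M = q * D.c M)) ∧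
    (∀ (w : ℤ) (M : 𝓐), T.IsPure w M → Simple M → T.FromCubic {1} M) ∧
    (∀ (n r : ℕ) (g : Fin (r + 1) → MvPolynomial (Fin n) ℚ), Smooth (str ℚ (Cubic g))) := by
  have hS : ∀ (w : ℤ) (M : 𝓐), Simple M →
      (∃ (X : Scheme.{0}) (f : X ⟶ Spec (CommRingCat.of ℚ)) (i m : ℤ), SmoothProjective f ∧
        i - 2 * m = w ∧ SubQuot M ((T.tw m).obj (T.H i X f))) → T.FromCubic {1} M := by
    rintro w M hM ⟨X, f, i, m, hf, -, hq⟩
    exact T.fromCubic closure_one_rat (Set.mem_singleton 1) f hf.ft i m M hM hq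
  refine ⟨⟨fun h M hM hc hcrit => ?_, fun h w M hM hcrit => ?_⟩, ?_, fun n r g => cubic_smooth g⟩
  · obtain ⟨w, hw⟩ := T.pure_of_cubic hM hc
    exact h w M hw hcrit
  · obtain ⟨n, S, hSa, hiso⟩ := hM
    have hpure : ∀ a, T.IsPure w (S a) := fun a => Theory.IsPure.of_simple (hSa a).1 (hSa a).2
    obtain ⟨h1, h2⟩ := D.additive w n S M hpure hiso
    obtain ⟨h3, q, hq, h4⟩ := h2 hcrit
    choose q' hq' using fun a => h (S a) (hSa a).1 (hS w (S a) (hSa a).1 (hSa a).2)
      (h1.mp hcrit a)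
    refine ⟨(∏ a, q' a) * q⁻¹, ?_⟩
    have h5 : ∏ a, D.L (S a) = (∏ a, (q' a : ℂ)) * ∏ a, D.c (S a) := by
      rw [← Finset.prod_mul_distrib]
      exact Finset.prod_congr rfl fun a _ => hq' a
    have hqc : (q : ℂ) ≠ 0 := by exact_mod_cast hq
    rw [h3, h4, h5]
    push_cast
    field_simp
  · intro w M hM hsimp
    obtain ⟨n, S, hSa, ⟨e⟩⟩ := hM
    -- `M` is simple and a direct sum of the `S a`, so it is isomorphic to one of them
    have hne : ∃ a, biproduct.ι S a ≫ e.inv ≠ 0 := by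
      by_contra hcon
      push Not at hcon
      have h1 : e.inv = 0 := biproduct.hom_ext' _ _ fun a => by rw [hcon a, comp_zero]
      have h2 : 𝟙 M = 0 := by rw [← e.hom_inv_id, h1, comp_zero]
      exact id_nonzero M h2
    obtain ⟨a, ha⟩ := hne
    have := (hSa a).1
    have hiso : IsIso (biproduct.ι S a ≫ e.inv) := isIso_of_hom_simple ha
    exact Theory.FromCubic.of_iso T.toTheory (hS w (S a) (hSa a).1 (hSa a).2)
      (asIso (biproduct.ι S a ≫ e.inv))

end Pool.Agent.Results.MP_b696eb_nt.CubicHypersurfaces
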