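import Pool.Agent.TH349.ORP.Rep

/-!
# Deligne's conjecture (rational coefficients) and number fields with at most one real place
-/

set_option autoImplicit false

open CategoryTheory CategoryTheory.Limits MonoidalCategory NumberField NumberField.InfinitePlace
  Pool.Agent.TH965.St Pool.Agent.TH349.ORP

namespace Pool.Agent.Results.MP_b696eb_nt.OneRealPlace

universe v u

/-- Motives over `ℚ` with rational coefficients: an additive tensor category with the notions and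
values that occur in Deligne's conjecture, and their formal properties. -/
structure Motives (𝓜 : Type u) [Category.{v} 𝓜] [Preadditive 𝓜] [MonoidalCategory 𝓜]
    [MonoidalPreadditive 𝓜] [HasFiniteBiproducts 𝓜] where
  /-- `M` is pure of weight `w` -/
  IsPure : ℤ → 𝓜 → Prop
  /-- `M` has no classes of type `(q, q)` -/
  NoMiddle : 𝓜 → Prop
  /-- `M` is critical -/
  Critical : 𝓜 → Prop
  /-- the value `L(M, 0)` -/
  L : 𝓜 → ℂ
  /-- the period `c⁺(M)` -/
  c : 𝓜 → ℂ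
  /-- the Artin motive `h(Spec K)`, `K` a number field -/
  h : IntermediateField ℚ Qb → 𝓜
  /-- periods are not zero -/
  c_ne : ∀ (w : ℤ) (M : 𝓜), IsPure w M → NoMiddle M → Critical M → c M ≠ 0
  /-- direct sums of motives of the same weight -/
  additive : ∀ (w : ℤ) (n : ℕ) (S : Fin n → 𝓜) (M : 𝓜), (∀ a, IsPure w (S a)) →
    (∀ a, NoMiddle (S a)) → (∀ a, Critical (S a)) → Nonempty (M ≅ ⨁ S) →
    L M = ∏ a, L (S a) ∧ ∃ q : ℚ, q ≠ 0 ∧ c M = q * ∏ a, c (S a)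
  /-- `M ⊗ h(Spec K)` is the restriction of scalars of the base change of `M` to `K` -/
  twist : ∀ (w : ℤ) (M : 𝓜), IsPure w M → NoMiddle M → Critical M →
    ∀ K : IntermediateField ℚ Qb, NumberField K →
    IsPure w (M ⊗ h K) ∧ NoMiddle (M ⊗ h K) ∧ Critical (M ⊗ h K)
  /-- `h(Spec ℚ)` is the unit -/
  unit : Nonempty (h ⊥ ≅ 𝟙_ 𝓜)
  /-- a direct sum of `h(Spec K)`'s is determined by its (permutation) character -/
  artin : ∀ (n n' : ℕ) (K : Fin n → IntermediateField ℚ Qb) (K' : Fin n' → IntermediateField ℚ Qb),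
    (∀ a, NumberField (K a)) → (∀ b, NumberField (K' b)) →
    (∀ g : GQ, ∑ a, perm (K a) g = ∑ b, perm (K' b) g) →
    Nonempty ((⨁ fun a => h (K a)) ≅ ⨁ fun b => h (K' b))

variable {𝓜 : Type u} [Category.{v} 𝓜] [Preadditive 𝓜] [MonoidalCategory 𝓜]
    [MonoidalPreadditive 𝓜] [HasFiniteBiproducts 𝓜]

/-- Deligne's conjecture for `M`: `L(M, 0)` is a rational multiple of `c⁺(M)`. -/
def Motives.Conj (T : Motives 𝓜) (M : 𝓜) : Prop := ∃ q : ℚ, T.L M = q * T.c M

/-- pure of weight `w`, without classes of type `(q, q)`, and critical -/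
def Motives.Ok (T : Motives 𝓜) (w : ℤ) (M : 𝓜) : Prop :=
  T.IsPure w M ∧ T.NoMiddle M ∧ T.Critical M

theorem conj_of (T : Motives 𝓜) (w : ℤ) (hL : ∀ M, T.Ok w M → T.L M ≠ 0) {n n' : ℕ}
    (S : Fin n → 𝓜) (S' : Fin (n' + 1) → 𝓜) (h1 : ∀ a, T.Ok w (S a)) (h2 : ∀ b, T.Ok w (S' b))
    (e : Nonempty ((⨁ S) ≅ ⨁ S')) (h3 : ∀ a, T.Conj (S a)) (h4 : ∀ b : Fin n', T.Conj (S' b.succ)) :
    T.Conj (S' 0) := by
  obtain ⟨a1, q, hq, a2⟩ := T.additive w n S (⨁ S) (fun a => (h1 a).1) (fun a => (h1 a).2.1)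
    (fun a => (h1 a).2.2) ⟨Iso.refl _⟩
  obtain ⟨b1, q', hq', b2⟩ := T.additive w (n' + 1) S' (⨁ S) (fun a => (h2 a).1)
    (fun a => (h2 a).2.1) (fun a => (h2 a).2.2) e
  choose r hr using h3
  choose r' hr' using h4
  rw [Fin.prod_univ_succ] at b1 b2
  have hr0 : ∀ b, (r' b : ℂ) ≠ 0 := by
    intro b h
    have := hL _ (h2 b.succ)
    rw [hr' b, h, zero_mul] at this
    exact this rfl
  have c1 : ∏ b : Fin n', T.L (S' b.succ) = (∏ b, (r' b : ℂ)) * ∏ b : Fin n', T.c (S' b.succ) := by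
    rw [← Finset.prod_mul_distrib]
    exact Finset.prod_congr rfl fun b _ => hr' b
  have c2 : ∏ a, T.L (S a) = (∏ a, (r a : ℂ)) * ∏ a, T.c (S a) := by
    rw [← Finset.prod_mul_distrib]
    exact Finset.prod_congr rfl fun b _ => hr b
  have d1 : (∏ b : Fin n', T.c (S' b.succ)) ≠ 0 := by
    rw [Finset.prod_ne_zero_iff]
    exact fun b _ => T.c_ne w _ (h2 b.succ).1 (h2 b.succ).2.1 (h2 b.succ).2.2
  have d2 : (∏ b, (r' b : ℂ)) ≠ 0 := by
    rw [Finset.prod_ne_zero_iff]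
    exact fun b _ => hr0 b
  have hq0 : (q : ℂ) ≠ 0 := by exact_mod_cast hq
  refine ⟨(∏ a, r a) * (q' / q) / ∏ b, r' b, ?_⟩
  push_cast
  rw [c1] at b1
  rw [c2] at a1
  have e1 : T.L (S' 0) * ((∏ b, (r' b : ℂ)) * ∏ b : Fin n', T.c (S' b.succ)) =
      (∏ a, (r a : ℂ)) * ∏ a, T.c (S a) := by rw [← b1, a1]
  have e2 : (q : ℂ) * ∏ a, T.c (S a) = q' * (T.c (S' 0) * ∏ b : Fin n', T.c (S' b.succ)) := by
    rw [← a2, b2]
  have e3 : ∏ a, T.c (S a) = q' * (T.c (S' 0) * ∏ b : Fin n', T.c (S' b.succ)) / q := by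
    rw [← e2, mul_div_cancel_left₀ _ hq0]
  rw [e3] at e1
  have e4 : (T.L (S' 0) * (∏ b, (r' b : ℂ))) * (∏ b : Fin n', T.c (S' b.succ)) =
      ((∏ a, (r a : ℂ)) * (q' / q) * T.c (S' 0)) * (∏ b : Fin n', T.c (S' b.succ)) := by
    rw [mul_assoc, e1]
    ring
  have e5 := mul_right_cancel₀ d1 e4
  rw [div_mul_eq_mul_div, eq_div_iff d2, e5]

/-- the permutation character of `ℚ` is trivial -/
theorem perm_bot (g : GQ) : perm ⊥ g = 1 := by
  have key : ∀ H : Subgroup GQ, H = ⊤ → Nat.card {q : GQ ⧸ H // g • q = q} = 1 := by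
    rintro H rfl
    have : Subsingleton (GQ ⧸ (⊤ : Subgroup GQ)) := QuotientGroup.subsingleton_quotient_top
    rw [Nat.card_eq_one_iff_unique]
    refine ⟨⟨?_⟩, ⟨⟨((1 : GQ) : GQ ⧸ (⊤ : Subgroup GQ)), Subsingleton.elim _ _⟩⟩⟩
    intro x y
    exact Subtype.ext (Subsingleton.elim _ _)
  exact key _ IntermediateField.fixingSubgroup_bot

theorem main (T : Motives 𝓜) (w : ℤ) (hL : ∀ M, T.Ok w M → T.L M ≠ 0) {p : ℕ} (hp : p.Prime)
    (h2 : p ≠ 2) (M : 𝓜) (hM : T.Ok w M) (hK : ∀ K, Few p K → T.Conj (M ⊗ T.h K)) : T.Conj M := by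
  obtain ⟨n, K, n', K', h3, h4, h5⟩ := trivial_character hp h2
  let K1 : Fin (n' + 1) → IntermediateField ℚ Qb := Fin.cons ⊥ K'
  have nf : ∀ a, NumberField (K a) := fun a => (h3 a).2.choose
  have nf' : ∀ b, NumberField (K1 b) := by
    intro b
    refine Fin.cases ?_ (fun i => ?_) b
    · exact nf_bot
    · exact (h4 i).2.choose
  obtain ⟨e1⟩ := T.artin n (n' + 1) K K1 nf nf' (by
    intro g
    rw [Fin.sum_univ_succ, h5 g]
    have : perm (K1 0) g = 1 := perm_bot g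
    rw [this]
    rfl)
  have e2 : (⨁ fun a => M ⊗ T.h (K a)) ≅ ⨁ fun b => M ⊗ T.h (K1 b) :=
    (leftDistributor M (fun a => T.h (K a))).symm ≪≫ (whiskerLeftIso M e1) ≪≫
      leftDistributor M (fun b => T.h (K1 b))
  have h6 : T.Conj (M ⊗ T.h (K1 0)) :=
    conj_of T w hL (fun a => M ⊗ T.h (K a)) (fun b => M ⊗ T.h (K1 b))
      (fun a => T.twist w M hM.1 hM.2.1 hM.2.2 _ (nf a))
      (fun b => T.twist w M hM.1 hM.2.1 hM.2.2 _ (nf' b)) ⟨e2⟩
      (fun a => hK _ (h3 a)) (fun b => hK _ (h4 b))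
  obtain ⟨e3⟩ := T.unit
  have e4 : M ⊗ T.h (K1 0) ≅ ⨁ (fun _ : Fin 1 => M) :=
    (whiskerLeftIso M e3) ≪≫ (ρ_ M) ≪≫ (biproductUniqueIso (fun _ : Fin 1 => M)).symm
  obtain ⟨f1, q, hq, f2⟩ := T.additive w 1 (fun _ => M) (M ⊗ T.h (K1 0)) (fun _ => hM.1)
    (fun _ => hM.2.1) (fun _ => hM.2.2) ⟨e4⟩
  obtain ⟨r, hr⟩ := h6
  rw [Fin.prod_univ_one] at f1 f2
  refine ⟨r * q, ?_⟩
  rw [← f1, hr, f2]
  push_cast
  ring

/-- **Deligne's conjecture and fields with at most one real place.** Consider critical pure motives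
of weight `w` over `ℚ` (rational coefficients) without classes of type `(q, q)`, and suppose that
`L(M, 0) ≠ 0` for them (`w ≠ -2, -1, 0`).
(1) For every odd prime `p` Deligne's conjecture for such a motive `M` follows from Deligne's
conjecture for the restrictions of scalars `M ⊗ h(Spec K)` of the base changes of `M` to the
subfields `K` of `ℚ(μ_p, 2^(1/p), 3^(1/p))` with at most one real place and at least `(p - 1)/2`
complex places.
(2) Hence, for every `N`, Deligne's conjecture for all these motives is equivalent to its case of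
the motives `M ⊗ h(Spec K)`, `K` a number field with at most one real place and at least `N` complex
places. -/
theorem result (T : Motives 𝓜) (w : ℤ) (hL : ∀ M, T.Ok w M → T.L M ≠ 0) :
    (∀ p : ℕ, p.Prime → p ≠ 2 → ∀ M, T.Ok w M → (∀ K, Few p K → T.Conj (M ⊗ T.h K)) → T.Conj M) ∧
    (∀ N : ℕ, (∀ M, T.Ok w M → T.Conj M) ↔
      (∀ M, T.Ok w M → ∀ (K : IntermediateField ℚ Qb) (_ : NumberField K), nrRealPlaces K ≤ 1 →
        N ≤ nrComplexPlaces K → T.Conj (M ⊗ T.h K))) := by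
  refine ⟨fun p hp h2 M hM hK => main T w hL hp h2 M hM hK, fun N => ⟨fun H M hM K hK _ _ => ?_,
    fun H M hM => ?_⟩⟩
  · exact H _ (T.twist w M hM.1 hM.2.1 hM.2.2 K hK)
  · obtain ⟨p, h1, hp⟩ := Nat.exists_infinite_primes (2 * N + 3)
    refine main T w hL hp (by omega) M hM fun K hK => ?_
    obtain ⟨-, hnf, h3, h4⟩ := hK
    exact H M hM K hnf h3 (by omega)

end Pool.Agent.Results.MP_b696eb_nt.OneRealPlace
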