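import Pool.Agent.TH452.TC.In3

/-!
Deligne's conjecture for base changes: reduction to `ℚ` and the totally complex fields.
-/

set_option autoImplicit false

namespace Pool.Agent.Results.MP_b696eb_nt.TotallyComplexBaseChange

open NumberField

/-- the number fields inside a fixed algebraic closure of `ℚ` -/
abbrev NF : Type := {K : IntermediateField ℚ (AlgebraicClosure ℚ) // NumberField K}

/-- the value at `g` of the permutation character of `Gal(Q̄/ℚ)` on the embeddings of `K` -/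
noncomputable def perm (K : NF) (g : Gal(AlgebraicClosure ℚ/ℚ)) : ℤ :=
  Nat.card {φ : K.1 →ₐ[ℚ] AlgebraicClosure ℚ // ∀ x, g (φ x) = φ x}

/-- `f` is trivial on every linear relation between permutation characters of number fields -/
def Mult (f : NF → ℂˣ) : Prop :=
  ∀ n : NF →₀ ℤ, (∀ g, n.sum (fun K k => k * perm K g) = 0) → n.prod (fun K k => f K ^ k) = 1

/-- number of real places -/
noncomputable def r₁ (K : NF) : ℕ := haveI := K.2; InfinitePlace.nrRealPlaces K.1

/-- number of complex places -/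
noncomputable def r₂ (K : NF) : ℕ := haveI := K.2; InfinitePlace.nrComplexPlaces K.1

/-- the field of rational numbers -/
noncomputable def rat : NF := ⟨⊥, (Pool.Agent.TH965.St.nf_iff _).2
  (inferInstance : FiniteDimensional ℚ (⊥ : IntermediateField ℚ (AlgebraicClosure ℚ)))⟩

open Pool.Agent.TH452.TC Pool.Agent.TH965.St

theorem two_r (K : NF) {τ : Qb →+* ℂ} {c : GQ} (h : Cj τ c) :
    2 * ((r₁ K + r₂ K : ℕ) : ℤ) = 1 * TH452.TC.em K.1 1 + 1 * TH452.TC.em K.1 c ∧
    2 * (r₂ K : ℤ) = 1 * TH452.TC.em K.1 1 + (-1) * TH452.TC.em K.1 c := by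
  have : NumberField K.1 := K.2
  have h1 : TH452.TC.em K.1 c = (r₁ K : ℤ) := em_cc h K.1
  have h2 : TH452.TC.em K.1 1 = (r₁ K : ℤ) + 2 * (r₂ K : ℤ) := by
    rw [em_one, ← InfinitePlace.card_add_two_mul_card_eq_rank]
    push_cast
    rfl
  rw [h1, h2]
  push_cast
  constructor <;> ring

/-- Let `A(K) = L(K) / (c₊^(r₁+r₂) c₋^(r₂) δ(K)^h)`, with `L` and `δ` multiplicative, and let `T` be
a group of complex numbers containing `A(K)` for every totally complex number field `K`. Then, for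
every totally real number field `K`, `A(K) / A(ℚ)^(r₁ K)` is in `T`; and for every number field `K`
some `2^k`-th power of `A(K) / A(ℚ)^(r₁ K)` is in `T`. If `T` is closed under square roots,
`A(K) ∈ T` for all number fields `K` as soon as `A(K₀) ∈ T` for one `K₀` such that `T` is closed
under `r₁(K₀)`-th roots. -/
theorem result (L δ : NF → ℂˣ) (hL : Mult L) (hδ : Mult δ) (cp cm : ℂˣ) (h : ℕ)
    (A : NF → ℂˣ) (hA : ∀ K, A K = L K / (cp ^ (r₁ K + r₂ K) * cm ^ r₂ K * δ K ^ h))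
    (T : Subgroup ℂˣ) (hTC : ∀ K, r₁ K = 0 → A K ∈ T) :
    (∀ K, r₂ K = 0 → A K / A rat ^ r₁ K ∈ T) ∧
    (∀ K, ∃ k : ℕ, (A K / A rat ^ r₁ K) ^ 2 ^ k ∈ T) ∧
    ((∀ z, z ^ 2 ∈ T → z ∈ T) → ∀ K₀, (∀ z, z ^ r₁ K₀ ∈ T → z ∈ T) →
      ((∀ K, A K ∈ T) ↔ A K₀ ∈ T)) := by
  have hmu : ∀ f : NF → ℂˣ, Mult f → Mu f := fun f hf => hf
  obtain ⟨τ, c, hc⟩ := exists_cj
  have hAmu : Mu A := by
    have h1 : Mu (fun K : NF => cp ^ (r₁ K + r₂ K)) :=
      mu_exp cp _ (fun n hn => exp_of_two _ 1 1 1 c (fun K => (two_r K hc).1) n hn)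
    have h2 : Mu (fun K : NF => cm ^ r₂ K) :=
      mu_exp cm _ (fun n hn => exp_of_two _ 1 (-1) 1 c (fun K => (two_r K hc).2) n hn)
    have h3 := (hmu L hL).mul ((h1.mul h2).mul ((hmu δ hδ).pow h)).inv
    have h4 : A = fun K => L K * (cp ^ (r₁ K + r₂ K) * cm ^ r₂ K * δ K ^ h)⁻¹ := by
      funext K
      rw [hA, div_eq_mul_inv]
    rw [h4]
    exact h3
  have hcr : ∀ K : NF, TH452.TC.em K.1 c = (r₁ K : ℤ) := by
    intro K
    have : NumberField K.1 := K.2
    exact em_cc hc K.1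
  have hTC' : ∀ F : NF, TH452.TC.em F.1 c = 0 → A F ∈ T := by
    intro F hF
    apply hTC
    have h1 := hcr F
    rw [hF] at h1
    exact_mod_cast h1.symm
  have key : ∀ K, ∃ k : ℕ, (A K / A rat ^ r₁ K) ^ 2 ^ k ∈ T := fun K =>
    main_mu' hAmu hc hTC' rat rfl K (r₁ K) (hcr K)
  refine ⟨?_, key, ?_⟩
  · intro K hK
    have hKn : NumberField K.1 := K.2
    have h1 := real_em hc K.1 hK
    have h2 : Module.finrank ℚ K.1 = r₁ K := by
      have h3 := InfinitePlace.card_add_two_mul_card_eq_rank K.1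
      have h4 : InfinitePlace.nrComplexPlaces K.1 = 0 := hK
      rw [h4, mul_zero, add_zero] at h3
      exact h3.symm
    rw [h2] at h1
    exact exact_mu hAmu hTC' rat rfl K (r₁ K) h1
  · intro hT K₀ hK₀
    have key' : ∀ K, A K / A rat ^ r₁ K ∈ T := fun K => by
      obtain ⟨k, hk⟩ := key K
      exact pow_closed hT k _ hk
    have key2 : A rat ∈ T → ∀ K, A K ∈ T := by
      intro hq K
      have := T.mul_mem (key' K) (T.pow_mem hq (r₁ K))
      rwa [div_mul_cancel] at this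
    refine ⟨fun h => h K₀, fun hk => key2 ?_⟩
    apply hK₀
    have := T.mul_mem (T.inv_mem (key' K₀)) hk
    rwa [inv_div, div_mul_cancel] at this

end Pool.Agent.Results.MP_b696eb_nt.TotallyComplexBaseChange
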